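import Mathlib

/-!
# No admissible sequence of bipartite graphs exists for any `b₂` with `1 ≪ b₂ ≪ √m`

If every triple of `A` has exactly one common neighbour, then, for a fixed `u`, the vertices of
`N(u)` give a linear space on `A \ {u}`. Either some vertex of `B` is adjacent to all of `A`, and then
the other vertices of `B` have degree at most two and the degrees in `A` are far too large, or the
argument of de Bruijn and Erdős bounds `|A|` by the square of the largest pair codegree.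
-/

set_option autoImplicit false

namespace Pool.Agent.Results.MP_8b0535_co.NoneAdmissible

open Filter Topology

/-- The neighbourhood in `B` of a vertex `u` of `A`, in the bipartite graph with parts `A` and `B`
whose edges are the pairs `u b` with `R u b`. -/
def nbr {A B : Type} (R : A → B → Prop) (u : A) : Set B := {b | R u b}

/-- The sequence of bipartite graphs `G_m` with parts `Fin m` and `B m` and edges given by `R m` is
admissible for `b₂` (all requirements are imposed only on the graphs `G_m` with `m` large). -/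
def Admissible (b₂ : ℕ → ℝ) (B : ℕ → Type) (R : ∀ m, Fin m → B m → Prop) : Prop :=
  (∀ ε : ℝ, 0 < ε → ∀ᶠ m in atTop, ∀ u : Fin m, |((nbr (R m) u).ncard : ℝ) / m - 1| ≤ ε) ∧
  (∀ ε : ℝ, 0 < ε → ∀ᶠ m in atTop, ∀ u v : Fin m, u ≠ v →
    |((nbr (R m) u ∩ nbr (R m) v).ncard : ℝ) / b₂ m - 1| ≤ ε) ∧
  (∀ᶠ m in atTop, ∀ u v w : Fin m, u ≠ v → u ≠ w → v ≠ w →
    (nbr (R m) u ∩ nbr (R m) v ∩ nbr (R m) w).ncard = 1)

/-- `1 ≪ b₂ ≪ √m`. -/
def InRange (b₂ : ℕ → ℝ) : Prop :=
  (∀ m, 0 < b₂ m) ∧ Tendsto b₂ atTop atTop ∧ Tendsto (fun m => b₂ m / Real.sqrt m) atTop (𝓝 0)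

section Finite

variable {m : ℕ} {B : Type} [Finite B] (R : Fin m → B → Prop)

/-- the hub case -/
theorem hub_case (h3 : ∀ u v w : Fin m, u ≠ v → u ≠ w → v ≠ w →
      (nbr R u ∩ nbr R v ∩ nbr R w).ncard = 1) (hm : 3 ≤ m)
    (b₀ : B) (hb₀ : ∀ u, R u b₀) (k : ℕ)
    (hk : ∀ u v : Fin m, u ≠ v → k + 1 ≤ (nbr R u ∩ nbr R v).ncard) (u : Fin m) :
    (m - 1) * k ≤ (nbr R u).ncard := by
  classical
  haveI := Fintype.ofFinite B
  -- the private neighbours of the pair `u, v`
  let P : Fin m → Finset B := fun v => Finset.univ.filter fun b => R u b ∧ R v b ∧ b ≠ b₀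
  have hcard : ∀ v, u ≠ v → k ≤ (P v).card := by
    intro v huv
    have h1 := hk u v huv
    have h2 : nbr R u ∩ nbr R v = ((insert b₀ (P v) : Finset B) : Set B) := by
      ext b
      simp only [nbr, Set.mem_inter_iff, Set.mem_ofPred_eq, Finset.coe_insert, Set.mem_insert_iff,
        Finset.mem_coe, P, Finset.mem_filter, Finset.mem_univ, true_and]
      constructor
      · rintro ⟨h, h'⟩
        by_cases hb : b = b₀
        · exact Or.inl hb
        · exact Or.inr ⟨h, h', hb⟩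
      · rintro (rfl | ⟨h, h', -⟩)
        · exact ⟨hb₀ u, hb₀ v⟩
        · exact ⟨h, h'⟩
    rw [h2, Set.ncard_coe_finset, Finset.card_insert_of_notMem (by simp [P])] at h1
    omega
  have hdisj : ((Finset.univ.erase u : Finset (Fin m)) : Set (Fin m)).PairwiseDisjoint P := by
    intro v hv w hw hvw
    rw [Function.onFun, Finset.disjoint_left]
    intro b hb hb'
    simp only [P, Finset.mem_filter, Finset.mem_univ, true_and] at hb hb'
    have hv' : u ≠ v := by
      have := Finset.ne_of_mem_erase (Finset.mem_coe.1 hv)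
      exact this.symm
    have hw' : u ≠ w := by
      have := Finset.ne_of_mem_erase (Finset.mem_coe.1 hw)
      exact this.symm
    obtain ⟨c, hc⟩ := Set.ncard_eq_one.1 (h3 u v w hv' hw' hvw)
    have e1 : b ∈ ({c} : Set B) := by rw [← hc]; exact ⟨⟨hb.1, hb.2.1⟩, hb'.2.1⟩
    have e2 : b₀ ∈ ({c} : Set B) := by rw [← hc]; exact ⟨⟨hb₀ u, hb₀ v⟩, hb₀ w⟩
    rw [Set.mem_singleton_iff] at e1 e2
    exact hb.2.2 (e1.trans e2.symm)
  have hsub : (Finset.univ.erase u).biUnion P ⊆ Finset.univ.filter fun b => R u b := by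
    intro b hb
    simp only [Finset.mem_biUnion, P, Finset.mem_filter, Finset.mem_univ, true_and] at hb ⊢
    obtain ⟨v, -, hb⟩ := hb
    exact hb.1
  have h4 := Finset.card_le_card hsub
  rw [Finset.card_biUnion fun v hv w hw hvw => hdisj hv hw hvw] at h4
  have h5 : (m - 1) * k ≤ ∑ v ∈ Finset.univ.erase u, (P v).card := by
    have : ∑ v ∈ Finset.univ.erase u, k ≤ ∑ v ∈ Finset.univ.erase u, (P v).card :=
      Finset.sum_le_sum fun v hv => hcard v (Finset.ne_of_mem_erase hv).symm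
    rw [Finset.sum_const, Finset.card_erase_of_mem (Finset.mem_univ _), Finset.card_univ,
      Fintype.card_fin, smul_eq_mul] at this
    exact this
  have h6 : (nbr R u).ncard = (Finset.univ.filter fun b => R u b).card := by
    rw [← Set.ncard_coe_finset]
    congr 1
    ext b
    simp [nbr]
  omega

/-- the case without a hub -/
theorem no_hub_case (h3 : ∀ u v w : Fin m, u ≠ v → u ≠ w → v ≠ w →
      (nbr R u ∩ nbr R v ∩ nbr R w).ncard = 1) (hm : 3 ≤ m)
    (hno : ∀ b : B, ∃ u, ¬ R u b) (k : ℕ)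
    (hk : ∀ u v : Fin m, u ≠ v → (nbr R u ∩ nbr R v).ncard ≤ k) : m ≤ k * k + 2 := by
  classical
  haveI := Fintype.ofFinite B
  have huniq : ∀ u v w : Fin m, u ≠ v → u ≠ w → v ≠ w → ∀ b c, R u b → R v b → R w b →
      R u c → R v c → R w c → b = c := by
    intro u v w h1 h2 h4 b c e1 e2 e3 f1 f2 f3
    obtain ⟨d, hd⟩ := Set.ncard_eq_one.1 (h3 u v w h1 h2 h4)
    have g1 : b ∈ ({d} : Set B) := by rw [← hd]; exact ⟨⟨e1, e2⟩, e3⟩
    have g2 : c ∈ ({d} : Set B) := by rw [← hd]; exact ⟨⟨f1, f2⟩, f3⟩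
    rw [Set.mem_singleton_iff] at g1 g2
    exact g1.trans g2.symm
  have hex : ∀ u v w : Fin m, u ≠ v → u ≠ w → v ≠ w → ∃ b, R u b ∧ R v b ∧ R w b := by
    intro u v w h1 h2 h4
    obtain ⟨d, hd⟩ := Set.ncard_eq_one.1 (h3 u v w h1 h2 h4)
    have : d ∈ nbr R u ∩ nbr R v ∩ nbr R w := by rw [hd]; rfl
    exact ⟨d, this.1.1, this.1.2, this.2⟩
  have hk' : ∀ u v : Fin m, u ≠ v → (Finset.univ.filter fun b => R u b ∧ R v b).card ≤ k := by
    intro u v huv
    have := hk u v huv
    have h : nbr R u ∩ nbr R v = ((Finset.univ.filter fun b => R u b ∧ R v b : Finset B) : Set B) := by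
      ext b
      simp [nbr]
    rwa [h, Set.ncard_coe_finset] at this
  let u : Fin m := ⟨0, by omega⟩
  let v : Fin m := ⟨1, by omega⟩
  have huv : u ≠ v := by
    intro h
    have := congrArg Fin.val h
    simp [u, v] at this
  -- the blocks through `u` are small
  have hblock : ∀ b, R u b → (Finset.univ.filter fun w => w ≠ u ∧ R w b).card ≤ k := by
    intro b hub
    obtain ⟨p, hp⟩ := hno b
    have hup : u ≠ p := by
      rintro h
      rw [← h] at hp
      exact hp hub
    refine le_trans ?_ (hk' u p hup)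
    have hc : ∀ w : Fin m, ∃ c, w ≠ u → R w b → R u c ∧ R p c ∧ R w c := by
      intro w
      by_cases hw : w ≠ u ∧ R w b
      · have hpw : p ≠ w := by
          rintro h
          rw [← h] at hw
          exact hp hw.2
        obtain ⟨c, hc⟩ := hex u p w hup hw.1.symm hpw
        exact ⟨c, fun _ _ => hc⟩
      · exact ⟨b, fun h1 h2 => (hw ⟨h1, h2⟩).elim⟩
    choose c hc using hc
    refine Finset.card_le_card_of_injOn c ?_ ?_
    · intro w hw
      simp only [Finset.coe_filter, Finset.mem_univ, true_and, Set.mem_ofPred_eq] at hw ⊢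
      exact ⟨(hc w hw.1 hw.2).1, (hc w hw.1 hw.2).2.1⟩
    · intro w hw w' hw' hcc
      simp only [Finset.coe_filter, Finset.mem_univ, true_and, Set.mem_ofPred_eq] at hw hw'
      by_contra hne
      have h1 := hc w hw.1 hw.2
      have h2 := hc w' hw'.1 hw'.2
      have h4 := huniq u w w' hw.1.symm hw'.1.symm hne b (c w) hub hw.2 hw'.2 h1.1 h1.2.2
        (by rw [hcc]; exact h2.2.2)
      exact hp (by rw [h4]; exact h1.2.1)
  have hcover : (Finset.univ : Finset (Fin m)) ⊆ {u, v} ∪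
      (Finset.univ.filter fun b => R u b ∧ R v b).biUnion
        fun b => Finset.univ.filter fun w => w ≠ u ∧ R w b := by
    intro w _
    simp only [Finset.mem_union, Finset.mem_insert, Finset.mem_singleton, Finset.mem_biUnion,
      Finset.mem_filter, Finset.mem_univ, true_and]
    by_cases hwu : w = u
    · exact Or.inl (Or.inl hwu)
    · by_cases hwv : w = v
      · exact Or.inl (Or.inr hwv)
      · right
        obtain ⟨b, hb1, hb2, hb3⟩ := hex u v w huv (Ne.symm hwu) (Ne.symm hwv)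
        exact ⟨b, ⟨hb1, hb2⟩, hwu, hb3⟩
  have h1 := Finset.card_le_card hcover
  have h2 := Finset.card_union_le ({u, v} : Finset (Fin m))
    ((Finset.univ.filter fun b => R u b ∧ R v b).biUnion
        fun b => Finset.univ.filter fun w => w ≠ u ∧ R w b)
  have h4 : ((Finset.univ.filter fun b => R u b ∧ R v b).biUnion
        fun b => Finset.univ.filter fun w => w ≠ u ∧ R w b).card ≤ k * k := by
    refine (Finset.card_biUnion_le_card_mul _ _ k fun b hb => hblock b ?_).trans ?_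
    · exact (Finset.mem_filter.1 hb).2.1
    · exact Nat.mul_le_mul_right _ (hk' u v huv)
  have h5 : ({u, v} : Finset (Fin m)).card ≤ 2 := Finset.card_le_two
  simp only [Finset.card_univ, Fintype.card_fin] at h1
  omega

end Finite

/-- For every function `b₂` with `1 ≪ b₂ ≪ √m` there is no admissible sequence of bipartite graphs
(and such functions `b₂` exist). -/
theorem result :
    (∀ b₂ : ℕ → ℝ, InRange b₂ →
      ¬ ∃ (B : ℕ → Type) (_ : ∀ m, Finite (B m)) (R : ∀ m, Fin m → B m → Prop),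
        Admissible b₂ B R) ∧
    ∃ b₂ : ℕ → ℝ, InRange b₂ := by
  refine ⟨?_, ?_⟩
  · rintro b₂ ⟨hpos, htop, hzero⟩ ⟨B, hB, R, h1, h2, h3⟩
    have e1 := h1 (1 / 2) (by norm_num)
    have e2 := h2 (1 / 2) (by norm_num)
    have e3 := (htop.eventually_ge_atTop 10)
    have e4 := hzero.eventually (gt_mem_nhds (by norm_num : (0 : ℝ) < 1 / 10))
    obtain ⟨m, hm1, hm2, hm3, hm4, hm5, hm6⟩ :=
      (e1.and (e2.and (h3.and (e3.and (e4.and (eventually_ge_atTop 10)))))).exists
    have hmpos : (0 : ℝ) < m := by exact_mod_cast (by omega : 0 < m)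
    have hcn : ∀ u v : Fin m, u ≠ v →
        b₂ m / 2 ≤ ((nbr (R m) u ∩ nbr (R m) v).ncard : ℝ) ∧
        ((nbr (R m) u ∩ nbr (R m) v).ncard : ℝ) ≤ 3 / 2 * b₂ m := by
      intro u v huv
      have h := abs_le.1 (hm2 u v huv)
      have hb := hpos m
      constructor
      · have : (1 / 2 : ℝ) ≤ ((nbr (R m) u ∩ nbr (R m) v).ncard : ℝ) / b₂ m := by linarith
        rw [le_div_iff₀ hb] at this
        linarith
      · have : ((nbr (R m) u ∩ nbr (R m) v).ncard : ℝ) / b₂ m ≤ 3 / 2 := by linarith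
        rw [div_le_iff₀ hb] at this
        linarith
    haveI := hB m
    by_cases hhub : ∃ b₀ : B m, ∀ u, R m u b₀
    · obtain ⟨b₀, hb₀⟩ := hhub
      let u : Fin m := ⟨0, by omega⟩
      have h := hub_case (R m) hm3 (by omega) b₀ hb₀ 4 (by
        intro u v huv
        have := (hcn u v huv).1
        have h5 : (5 : ℝ) ≤ ((nbr (R m) u ∩ nbr (R m) v).ncard : ℝ) := by linarith
        exact_mod_cast h5) u
      have h5 := abs_le.1 (hm1 u)
      have h6 : ((nbr (R m) u).ncard : ℝ) ≤ 3 / 2 * m := by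
        have : ((nbr (R m) u).ncard : ℝ) / m ≤ 3 / 2 := by linarith
        rwa [div_le_iff₀ hmpos] at this
      have h7 : (((m - 1) * 4 : ℕ) : ℝ) ≤ ((nbr (R m) u).ncard : ℝ) := by exact_mod_cast h
      rw [Nat.cast_mul, Nat.cast_sub (by omega)] at h7
      push_cast at h7
      have h8 : (10 : ℝ) ≤ m := by exact_mod_cast hm6
      linarith
    · push Not at hhub
      have hk : ∀ u v : Fin m, u ≠ v → (nbr (R m) u ∩ nbr (R m) v).ncard ≤ ⌊3 / 2 * b₂ m⌋₊ :=
        fun u v huv => Nat.le_floor (hcn u v huv).2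
      have h := no_hub_case (R m) hm3 (by omega) hhub _ hk
      have h5 : (⌊3 / 2 * b₂ m⌋₊ : ℝ) ≤ 3 / 2 * b₂ m := Nat.floor_le (by have := hpos m; positivity)
      have h6 : b₂ m ≤ Real.sqrt m / 10 := by
        rw [div_lt_iff₀ (Real.sqrt_pos.2 hmpos)] at hm5
        linarith
      have h7 : (m : ℝ) ≤ (⌊3 / 2 * b₂ m⌋₊ : ℝ) * (⌊3 / 2 * b₂ m⌋₊ : ℝ) + 2 := by exact_mod_cast h
      have h8 : (⌊3 / 2 * b₂ m⌋₊ : ℝ) ≤ 3 / 20 * Real.sqrt m := by linarith
      have h9 : Real.sqrt m * Real.sqrt m = m := Real.mul_self_sqrt hmpos.le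
      have h10 : (⌊3 / 2 * b₂ m⌋₊ : ℝ) * (⌊3 / 2 * b₂ m⌋₊ : ℝ) ≤
          (3 / 20 * Real.sqrt m) * (3 / 20 * Real.sqrt m) :=
        mul_self_le_mul_self (Nat.cast_nonneg _) h8
      have h11 : (10 : ℝ) ≤ m := by exact_mod_cast hm6
      nlinarith
  · refine ⟨fun m => ((m : ℝ) + 1) ^ (1 / 4 : ℝ), fun m => by positivity, ?_, ?_⟩
    · refine (tendsto_rpow_atTop (by norm_num : (0 : ℝ) < 1 / 4)).comp ?_
      exact tendsto_atTop_add_const_right _ _ tendsto_natCast_atTop_atTop
    · have h1 : Tendsto (fun m : ℕ => 2 * (m : ℝ) ^ (-(1 / 4) : ℝ)) atTop (𝓝 (2 * 0)) :=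
        ((tendsto_rpow_neg_atTop (by norm_num : (0 : ℝ) < 1 / 4)).comp
          tendsto_natCast_atTop_atTop).const_mul 2
      rw [mul_zero] at h1
      refine squeeze_zero' (Eventually.of_forall fun m => by positivity) ?_ h1
      filter_upwards [eventually_ge_atTop 1] with m hm
      have hm' : (1 : ℝ) ≤ m := by exact_mod_cast hm
      have hm0 : (0 : ℝ) < m := by linarith
      rw [Real.sqrt_eq_rpow, div_le_iff₀ (by positivity), mul_assoc, ← Real.rpow_add hm0]
      have h2 : ((m : ℝ) + 1) ^ (1 / 4 : ℝ) ≤ (2 * m) ^ (1 / 4 : ℝ) :=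
        Real.rpow_le_rpow (by positivity) (by linarith) (by norm_num)
      have h3 : (2 * (m : ℝ)) ^ (1 / 4 : ℝ) = 2 ^ (1 / 4 : ℝ) * (m : ℝ) ^ (1 / 4 : ℝ) :=
        Real.mul_rpow (by norm_num) hm0.le
      have h4 : (2 : ℝ) ^ (1 / 4 : ℝ) ≤ 2 ^ (1 : ℝ) :=
        Real.rpow_le_rpow_of_exponent_le (by norm_num) (by norm_num)
      rw [Real.rpow_one] at h4
      have h5 : (-(1 / 4) + 1 / 2 : ℝ) = 1 / 4 := by norm_num
      rw [h5]
      calc ((m : ℝ) + 1) ^ (1 / 4 : ℝ) ≤ 2 ^ (1 / 4 : ℝ) * (m : ℝ) ^ (1 / 4 : ℝ) := h2.trans_eq h3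
        _ ≤ 2 * (m : ℝ) ^ (1 / 4 : ℝ) := mul_le_mul_of_nonneg_right h4 (by positivity)

end Pool.Agent.Results.MP_8b0535_co.NoneAdmissible
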